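import Pool.Agent.W300.FT.Stm

set_option autoImplicit false

/-! INV of the project FT (second attempt). -/

namespace Pool.Agent.W891.FT
open MeasureTheory ProbabilityTheory
open Pool.Agent.W300.FT

instance instCoin : IsProbabilityMeasure coin := by
  constructor
  simp [coin, ENNReal.inv_two_add_inv_two]

/-- relabelling preserves the measure of fair bits -/
theorem pc_map {E : Type} (e : E ≃ E) :
    (PC E).map (fun (ω : E → Bool) x => ω (e x)) = PC E := by
  classical
  unfold PC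
  have hmeas : Measurable (fun (ω : E → Bool) x => ω (e x)) := by
    rw [measurable_pi_iff]; intro x; exact measurable_pi_apply _
  have key : ∀ (s : Finset E) (t : E → Set Bool),
      ((Measure.infinitePi (fun _ : E => coin)).map (fun (ω : E → Bool) x => ω (e x)))
        (Set.pi (s : Set E) t) = ∏ i ∈ s, coin (t i) := by
    intro s t
    rw [Measure.map_apply hmeas
      (MeasurableSet.pi s.countable_toSet (fun i _ => MeasurableSet.of_discrete))]
    have h1 : (fun (ω : E → Bool) x => ω (e x)) ⁻¹' (Set.pi (s : Set E) t) =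
        Set.pi ((s.map e.toEmbedding : Finset E) : Set E) (fun x => t (e.symm x)) := by
      ext ω
      simp only [Set.mem_preimage, Set.mem_pi, Finset.mem_coe, Finset.mem_map,
        Equiv.coe_toEmbedding]
      constructor
      · rintro h _ ⟨x, hx, rfl⟩
        have := h x hx
        rw [Equiv.symm_apply_apply]
        exact this
      · intro h x hx
        have := h (e x) ⟨x, hx, rfl⟩
        rw [Equiv.symm_apply_apply] at this
        exact this
    rw [h1, Measure.infinitePi_pi]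
    · rw [Finset.prod_map]
      refine Finset.prod_congr rfl fun x _ => ?_
      simp only [Equiv.coe_toEmbedding, Equiv.symm_apply_apply]
    · intro x _
      exact MeasurableSet.of_discrete
  exact Measure.eq_infinitePi _ (fun s t _ => key s t)

/-- relabelling -/
def R {V : Type} {G : SimpleGraph V} (φ : G ≃g G) (ω : V × K → Bool) : V × K → Bool :=
  fun p => ω (φ p.1, p.2)

theorem et_R {V : Type} {G : SimpleGraph V} (φ : G ≃g G) (ω : V × K → Bool) (c : ℕ × ℕ) (j : ℕ)
    (v : V) : et G (R φ ω) c j v ↔ et G ω c j (φ v) := by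
  unfold et
  constructor
  · rintro ⟨u, ⟨h1, h2⟩, h3⟩
    refine ⟨φ u, ⟨φ.map_adj_iff.2 h1, h2⟩, ?_⟩
    rintro w ⟨hw1, hw2⟩
    have := h3 (φ.symm w) ⟨?_, ?_⟩
    · rw [← this]; simp
    · rw [← φ.map_adj_iff]; simpa using hw1
    · show ω (φ (φ.symm w), (c, j, 0)) = true
      simpa using hw2
  · rintro ⟨w, ⟨h1, h2⟩, h3⟩
    refine ⟨φ.symm w, ⟨?_, ?_⟩, ?_⟩
    · rw [← φ.map_adj_iff]; simpa using h1
    · show ω (φ (φ.symm w), (c, j, 0)) = true
      simpa using h2
    · rintro u ⟨hu1, hu2⟩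
      have := h3 (φ u) ⟨φ.map_adj_iff.2 hu1, hu2⟩
      rw [← this]; simp

theorem mt_R {V : Type} {G : SimpleGraph V} (φ : G ≃g G) (ω : V × K → Bool) (c : ℕ × ℕ) (j : ℕ)
    (u v : V) : W300.FT.mt G (R φ ω) c j u v ↔ W300.FT.mt G ω c j (φ u) (φ v) := by
  unfold W300.FT.mt
  rw [et_R, et_R, φ.map_adj_iff]
  rfl

theorem Ch_R {V : Type} {G : SimpleGraph V} (φ : G ≃g G) (ω : V × K → Bool) (c : ℕ × ℕ)
    (γ : ℕ → V) : Ch G (R φ ω) c γ ↔ Ch G ω c (fun n => φ (γ n)) := by
  unfold Ch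
  simp only [mt_R]

theorem fm_R {V : Type} {G : SimpleGraph V} (φ : G ≃g G) (ω : V × K → Bool) (c : ℕ × ℕ)
    (i : ℕ) (γ : ℕ → V) : fm (R φ ω) c i γ = fm ω c i (fun n => φ (γ n)) := rfl

theorem Psi_R {V : Type} {G : SimpleGraph V} (φ : G ≃g G) (ω : V × K → Bool) (v : V) (k : K) :
    Psi G (R φ ω) v k = Psi G ω (φ v) k := by
  classical
  have hs : ∀ w : V, φ (φ.symm w) = w := fun w => by simp
  have e1 : (∃ γ : ℕ → V, γ 1 = v ∧ Ch G (R φ ω) k.1 γ) ↔
      (∃ γ : ℕ → V, γ 1 = φ v ∧ Ch G ω k.1 γ) := by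
    constructor
    · rintro ⟨γ, h1, h2⟩
      exact ⟨fun n => φ (γ n), by simp [h1], (Ch_R φ ω k.1 γ).1 h2⟩
    · rintro ⟨γ, h1, h2⟩
      refine ⟨fun n => φ.symm (γ n), by simp [h1], (Ch_R φ ω k.1 _).2 ?_⟩
      simpa only [hs] using h2
  have e2 : (∃ γ : ℕ → V, γ 1 = v ∧ Ch G (R φ ω) k.1 γ ∧ fm (R φ ω) k.1 k.2.2 γ = 1) ↔
      (∃ γ : ℕ → V, γ 1 = φ v ∧ Ch G ω k.1 γ ∧ fm ω k.1 k.2.2 γ = 1) := by
    constructor
    · rintro ⟨γ, h1, h2, h3⟩
      exact ⟨fun n => φ (γ n), by simp [h1], (Ch_R φ ω k.1 γ).1 h2, h3⟩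
    · rintro ⟨γ, h1, h2, h3⟩
      refine ⟨fun n => φ.symm (γ n), by simp [h1], (Ch_R φ ω k.1 _).2 ?_, ?_⟩
      · simpa only [hs] using h2
      · rw [fm_R]; simpa only [hs] using h3
  unfold Psi
  simp only [e1, e2, et_R]
  rfl

theorem inv (hM : S_MEAS) : S_INV := by
  intro V G hV φ
  have hPsi : Measurable (Psi G) := (hM V G Set.univ hV).1
  let e : V × K ≃ V × K := Equiv.prodCongr φ.toEquiv (Equiv.refl K)
  have hR : Measurable (R φ : (V × K → Bool) → (V × K → Bool)) := by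
    rw [measurable_pi_iff]; intro x; exact measurable_pi_apply _
  have hT : Measurable (fun x : V → K → Bool => fun v => x (φ v)) := by
    rw [measurable_pi_iff]; intro x; exact measurable_pi_apply _
  unfold muX
  rw [Measure.map_map hT hPsi]
  have h1 : (fun x : V → K → Bool => fun v => x (φ v)) ∘ Psi G = Psi G ∘ R φ := by
    funext ω v k
    exact (Psi_R φ ω v k).symm
  rw [h1, ← Measure.map_map hPsi hR]
  have h2 : (PC (V × K)).map (R φ) = PC (V × K) := pc_map e
  rw [h2]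

end Pool.Agent.W891.FT
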