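import Pool.Agent.W300.FT.Stm

set_option autoImplicit false

/-! LOC1 of the project FT: measurability of the local sets and of the local values. -/

namespace Pool.Agent.W891.FT
open MeasureTheory ProbabilityTheory
open Pool.Agent.W300.FT

instance instPI (V : Type) : IsProbabilityMeasure (PI V) := by
  unfold PI; infer_instance

/-- the mixture is jointly measurable -/
theorem measurable_mix {V α : Type} [MeasurableSpace α] (N : Set V)
    {f g : α → V → unitInterval} (hf : Measurable f) (hg : Measurable g) :
    Measurable (fun a => mix N (f a) (g a)) := by
  classical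
  rw [measurable_pi_iff]
  intro u
  by_cases hu : u ∈ N
  · have : (fun a => mix N (f a) (g a) u) = fun a => f a u := by
      funext a; simp [mix, hu]
    rw [this]
    exact (measurable_pi_apply u).comp hf
  · have : (fun a => mix N (f a) (g a) u) = fun a => g a u := by
      funext a; simp [mix, hu]
    rw [this]
    exact (measurable_pi_apply u).comp hg

theorem loc1 : S_LOC1 := by
  classical
  intro V G F hV hF m v
  have hFk : ∀ k : K, Measurable (fun y => F y v k) := fun k =>
    (measurable_pi_apply k).comp ((measurable_pi_apply v).comp hF)
  constructor
  · -- the bad set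
    let X := V → unitInterval
    let E : Set (X × (X × X)) :=
      {q | F (mix (Bal G m v) q.1 q.2.1) v = F (mix (Bal G m v) q.1 q.2.2) v}
    have hE : MeasurableSet E := by
      have hEk : E = ⋂ k : K, {q : X × (X × X) |
          F (mix (Bal G m v) q.1 q.2.1) v k = F (mix (Bal G m v) q.1 q.2.2) v k} := by
        ext q
        simp only [E, Set.mem_setOf_eq, Set.mem_iInter]
        exact funext_iff
      rw [hEk]
      refine MeasurableSet.iInter fun k => ?_
      refine measurableSet_eq_fun ?_ ?_
      · exact (hFk k).comp (measurable_mix _ measurable_fst (measurable_fst.comp measurable_snd))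
      · exact (hFk k).comp (measurable_mix _ measurable_fst (measurable_snd.comp measurable_snd))
    have hm : Measurable (fun y : X => ((PI V).prod (PI V)) (Prod.mk y ⁻¹' Eᶜ)) :=
      measurable_measure_prodMk_left hE.compl
    have hL : Loc G F m v = {y : X | ((PI V).prod (PI V)) (Prod.mk y ⁻¹' Eᶜ) = 0} := by
      ext y
      simp only [Loc, Set.mem_setOf_eq]
      rw [ae_iff]
      rfl
    rw [hL]
    exact hm (measurableSet_singleton 0)
  · rw [measurable_pi_iff]
    intro k
    let X := V → unitInterval
    let E : Set (X × X) := {q | F (mix (Bal G m v) q.1 q.2) v k = true}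
    have hE : MeasurableSet E := by
      have h1 : Measurable (fun q : X × X => F (mix (Bal G m v) q.1 q.2) v k) :=
        (hFk k).comp (measurable_mix _ measurable_fst measurable_snd)
      exact h1 (measurableSet_singleton true)
    have hm : Measurable (fun y : X => (PI V) (Prod.mk y ⁻¹' E)) :=
      measurable_measure_prodMk_left hE
    have hS : MeasurableSet {y : X | 1 / 2 < PI V {y' | F (mix (Bal G m v) y y') v k = true}} :=
      measurableSet_lt measurable_const hm
    refine measurable_to_bool ?_
    have : (fun y : X => Gf G F m v y k) ⁻¹' {true} =
        {y : X | 1 / 2 < PI V {y' | F (mix (Bal G m v) y y') v k = true}} := by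
      ext y
      simp [Gf]
    rw [this]
    exact hS

end Pool.Agent.W891.FT
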