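import Pool.Agent.W891.FT.LOC1

set_option autoImplicit false

/-! LOC2 and LOC4 of the project FT (second attempt). -/

namespace Pool.Agent.W891.FT
open MeasureTheory ProbabilityTheory
open Pool.Agent.W300.FT

theorem mix_congr {V : Type} (N : Set V) (y y' z : V → unitInterval)
    (h : ∀ u ∈ N, y u = y' u) : mix N y z = mix N y' z := by
  classical
  funext u
  by_cases hu : u ∈ N
  · simp [mix, hu, h u hu]
  · simp [mix, hu]

theorem loc2 : S_LOC2 := by
  classical
  intro V G F m v y y' h
  have hm : ∀ z, mix (Bal G m v) y z = mix (Bal G m v) y' z := fun z =>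
    mix_congr _ y y' z h
  constructor
  · have : (y ∈ Loc G F m v) = (y' ∈ Loc G F m v) := by
      show (∀ᵐ p ∂((PI V).prod (PI V)), F (mix (Bal G m v) y p.1) v = F (mix (Bal G m v) y p.2) v)
        = (∀ᵐ p ∂((PI V).prod (PI V)), F (mix (Bal G m v) y' p.1) v =
          F (mix (Bal G m v) y' p.2) v)
      simp only [hm]
    rw [this]
  · funext k
    simp only [Gf, hm]

theorem loc4 : S_LOC4 := by
  classical
  intro V G F hV hF v hfin ε hε
  let A : ℕ → Set (V → unitInterval) := fun r =>
    {y | ∀ y' : V → unitInterval, (∀ u : V, G.dist v u ≤ r → y' u = y u) → F y' v = F y v}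
  have hmono : Monotone A := by
    intro r s hrs y hy y' h
    exact hy y' (fun u hu => h u (hu.trans hrs))
  have hsub : ∀ r, A r ⊆ Loc G F r v := by
    intro r y hy
    show ∀ᵐ p ∂((PI V).prod (PI V)), F (mix (Bal G r v) y p.1) v = F (mix (Bal G r v) y p.2) v
    refine Filter.Eventually.of_forall fun p => ?_
    have h : ∀ z : V → unitInterval, F (mix (Bal G r v) y z) v = F y v := by
      intro z
      refine hy _ fun u hu => ?_
      have : u ∈ Bal G r v := hu
      simp [mix, this]
    rw [h, h]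
  have hU : PI V (⋃ r, A r) = 1 := by
    have h0 : PI V (⋃ r, A r)ᶜ = 0 := by
      have h1 : ∀ᵐ y ∂(PI V), y ∈ ⋃ r, A r := by
        filter_upwards [hfin] with y hy
        obtain ⟨r, hr⟩ := hy
        exact Set.mem_iUnion.2 ⟨r, hr⟩
      exact h1
    refine le_antisymm prob_le_one ?_
    calc (1 : ENNReal) = PI V Set.univ := (measure_univ).symm
      _ = PI V ((⋃ r, A r) ∪ (⋃ r, A r)ᶜ) := by rw [Set.union_compl_self]
      _ ≤ PI V (⋃ r, A r) + PI V (⋃ r, A r)ᶜ := measure_union_le _ _
      _ = PI V (⋃ r, A r) := by rw [h0, add_zero]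
  rw [hmono.measure_iUnion] at hU
  -- pick `m`
  have hm : ∃ m, 1 < PI V (A m) + ε := by
    by_contra hcon
    push Not at hcon
    have h2 : (⨆ r, PI V (A r)) + ε ≤ 1 := by
      rw [ENNReal.iSup_add]
      exact iSup_le hcon
    rw [hU] at h2
    have h3 : (1 : ENNReal) < 1 + ε := ENNReal.lt_add_right ENNReal.one_ne_top hε.ne'
    exact absurd h2 (not_le.2 h3)
  obtain ⟨m, hm⟩ := hm
  refine ⟨m, ?_⟩
  have hL := (loc1 V G F hV hF m v).1
  have h4 : PI V (Loc G F m v) + PI V (Loc G F m v)ᶜ = 1 := by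
    rw [measure_add_measure_compl hL, measure_univ]
  have h5 : PI V (A m) ≤ PI V (Loc G F m v) := measure_mono (hsub m)
  by_contra hcon
  push Not at hcon
  have h6 : PI V (A m) + ε ≤ 1 := by
    calc PI V (A m) + ε ≤ PI V (Loc G F m v) + PI V (Loc G F m v)ᶜ := add_le_add h5 hcon
      _ = 1 := h4
  exact absurd h6 (not_le.2 hm)

end Pool.Agent.W891.FT
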